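import Mathlib
import Pool.Agent.H.MP_c17804_co.B

set_option autoImplicit false

namespace Pool.Agent.Results.MP_c17804_co.Yes

open Pool.Agent.H.MP_c17804_co

theorem result (k : ℕ) (V : Type) [Finite V] (G : SimpleGraph V) (h : Crit k G) : Con k V G :=
  main k V G h

end Pool.Agent.Results.MP_c17804_co.Yes
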